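import Mathlib

namespace Pool.Agent.P.MP_72c5f4_co

theorem fixed_orbit_card_le {H Ω Z : Type} [Group H] [Finite H] [MulAction H Ω] [Finite Z]
    (τ : H) (z : H → Z)
    (hz : ∀ σ σ' : H, σ⁻¹ * τ * σ = σ'⁻¹ * τ * σ' → z σ = z σ' → σ = σ') (B : Ω) :
    Nat.card {C : Ω // τ • C = C ∧ ∃ σ : H, σ • B = C} ≤ Nat.card Z := by
  classical
  let T := {C : Ω // τ • C = C ∧ ∃ σ : H, σ • B = C}
  let A := MulAction.stabilizer H B
  let s : T → H := fun C => C.2.2.choose
  have hs : ∀ C : T, s C • B = C.1 := fun C => C.2.2.choose_spec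
  have hsa : ∀ (C : T) (a : A), (s C * a.1) • B = C.1 := by
    intro C a
    rw [mul_smul, MulAction.mem_stabilizer_iff.1 a.2, hs]
  have hmem : ∀ (C : T) (a : A), (s C * a.1)⁻¹ * τ * (s C * a.1) ∈ A := by
    intro C a
    rw [MulAction.mem_stabilizer_iff, mul_smul, mul_smul, hsa, C.2.1, ← hsa C a, inv_smul_smul]
  let F : T × A → A × Z := fun p => (⟨_, hmem p.1 p.2⟩, z (s p.1 * p.2.1))
  have hF : Function.Injective F := by
    rintro ⟨C, a⟩ ⟨C', a'⟩ h
    have h1 : (s C * a.1)⁻¹ * τ * (s C * a.1) = (s C' * a'.1)⁻¹ * τ * (s C' * a'.1) :=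
      congrArg (fun q : A × Z => q.1.1) h
    have h2 : z (s C * a.1) = z (s C' * a'.1) := congrArg Prod.snd h
    have h3 := hz _ _ h1 h2
    have h4 : C = C' := by
      apply Subtype.ext
      rw [← hsa C a, h3, hsa]
    subst h4
    have h5 : a = a' := Subtype.ext (mul_left_cancel h3)
    rw [h5]
  have hc := Nat.card_le_card_of_injective F hF
  rw [Nat.card_prod, Nat.card_prod, mul_comm (Nat.card A)] at hc
  exact Nat.le_of_mul_le_mul_right hc Nat.card_pos

/-- Isomorphism of two set systems on `G`. -/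
def Iso {G : Type} (B C : Finset (Finset G)) : Prop :=
  ∃ σ : Equiv.Perm G, ∀ b : Finset G, b ∈ B ↔ b.map σ.toEmbedding ∈ C

theorem Iso.symm {G : Type} {B C : Finset (Finset G)} (h : Iso B C) : Iso C B := by
  obtain ⟨σ, hσ⟩ := h
  refine ⟨σ.symm, fun b => ?_⟩
  rw [hσ, Finset.map_map]
  simp

open Pointwise in
theorem iso_card_le (n : ℕ) [NeZero n] (B : Finset (Finset (ZMod n))) :
    Nat.card {C : Finset (Finset (ZMod n)) //
      (∀ b ∈ C, b.image (fun x => x + 1) ∈ C) ∧ Iso B C} ≤ n := by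
  classical
  let τ : Equiv.Perm (ZMod n) := Equiv.addRight 1
  have key := fixed_orbit_card_le (Ω := Finset (Finset (ZMod n))) (Z := ZMod n) τ
    (fun σ => σ⁻¹ 0) ?_ B
  · rw [Nat.card_zmod] at key
    refine le_trans ?_ key
    have himp : ∀ C : Finset (Finset (ZMod n)),
        ((∀ b ∈ C, b.image (fun x => x + 1) ∈ C) ∧ Iso B C) →
          (τ • C = C ∧ ∃ σ : Equiv.Perm (ZMod n), σ • B = C) := by
      rintro C ⟨h1, σ, hσ⟩
      constructor
      · apply Finset.eq_of_subset_of_card_le
        · intro c hc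
          obtain ⟨b, hb, rfl⟩ := Finset.mem_smul_finset.1 hc
          exact h1 b hb
        · rw [Finset.card_smul_finset]
      · refine ⟨σ, ?_⟩
        have hm : ∀ b : Finset (ZMod n), b.map σ.toEmbedding = σ • b := by
          intro b
          rw [Finset.map_eq_image]; rfl
        ext c
        rw [Finset.mem_smul_finset]
        constructor
        · rintro ⟨b, hb, rfl⟩
          rw [← hm]; exact (hσ b).1 hb
        · intro hc
          refine ⟨σ⁻¹ • c, ?_, smul_inv_smul _ _⟩
          rw [hσ, hm, smul_inv_smul]; exact hc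
    exact Nat.card_le_card_of_injective
      (fun C => (⟨C.1, himp C.1 C.2⟩ : {C : Finset (Finset (ZMod n)) //
        τ • C = C ∧ ∃ σ : Equiv.Perm (ZMod n), σ • B = C}))
      (fun C C' h => Subtype.ext (by simpa using h))
  · intro σ σ' h1 h2
    have h3 : ∀ m : ℕ, σ⁻¹ (m : ZMod n) = σ'⁻¹ (m : ZMod n) := by
      intro m
      induction m with
      | zero => simpa using h2
      | succ m ih =>
        have e1 : (σ⁻¹ * τ * σ) (σ⁻¹ (m : ZMod n)) = σ⁻¹ ((m + 1 : ℕ) : ZMod n) := by
          simp [τ]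
        have e2 : (σ'⁻¹ * τ * σ') (σ'⁻¹ (m : ZMod n)) = σ'⁻¹ ((m + 1 : ℕ) : ZMod n) := by
          simp [τ]
        rw [← e1, ← e2, h1, ih]
    apply inv_injective
    ext x
    rw [← ZMod.natCast_zmod_val x]
    exact h3 _

theorem greedy {Ω : Type} [Fintype Ω] (P : Ω → Prop) (E : Ω → Ω → Prop)
    (hE : ∀ B C, E B C → E C B) (n : ℕ) (hn : ∀ B, Nat.card {C : Ω // P C ∧ E B C} ≤ n) (M : ℕ)
    (hM : M * n < Nat.card {C : Ω // P C} + n) :
    ∃ B : Fin M → Ω, (∀ i, P (B i)) ∧ ∀ i j, i ≠ j → ¬ E (B i) (B j) := by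
  classical
  induction M with
  | zero => exact ⟨Fin.elim0, fun i => i.elim0, fun i => i.elim0⟩
  | succ M ih =>
    obtain ⟨B, hB1, hB2⟩ := ih (by nlinarith)
    have hex : ∃ C, P C ∧ ∀ i, ¬ E (B i) C := by
      by_contra hcon
      push Not at hcon
      have hsub : (Finset.univ.filter P) ⊆
          Finset.univ.biUnion (fun i : Fin M => Finset.univ.filter (fun C => P C ∧ E (B i) C)) := by
        intro C hC
        have hC' : P C := by simpa using hC
        obtain ⟨i, hi⟩ := hcon C hC'
        simp only [Finset.mem_biUnion, Finset.mem_univ, true_and, Finset.mem_filter]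
        exact ⟨i, hC', hi⟩
      have h1 := (Finset.card_le_card hsub).trans Finset.card_biUnion_le
      have h2 : ∑ i : Fin M, (Finset.univ.filter (fun C => P C ∧ E (B i) C)).card ≤ M * n := by
        calc _ ≤ ∑ _i : Fin M, n := Finset.sum_le_sum (fun i _ => by
              have := hn (B i)
              rwa [Nat.card_eq_fintype_card, Fintype.card_subtype] at this)
          _ = M * n := by simp
      rw [Nat.card_eq_fintype_card, Fintype.card_subtype] at hM
      nlinarith
    obtain ⟨C, hC1, hC2⟩ := hex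
    refine ⟨Fin.cons C B, ?_, ?_⟩
    · intro i
      refine Fin.cases ?_ (fun i => ?_) i
      · simpa using hC1
      · simpa using hB1 i
    · intro i j
      refine Fin.cases ?_ (fun i => ?_) i <;> refine Fin.cases ?_ (fun j => ?_) j
      · intro h; exact absurd rfl h
      · intro _ h; exact hC2 j (hE _ _ (by simpa using h))
      · intro _ h; exact hC2 i (by simpa using h)
      · intro h h'; exact hB2 i j (fun e => h (by rw [e])) (by simpa using h')

end Pool.Agent.P.MP_72c5f4_co
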