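import Mathlib

namespace Pool.Agent.P.MP_72c5f4_co

/-- A translation-invariant Steiner triple system on a ring `G` (invariant under `x ↦ x + 1`). -/
def IsCyc {G : Type} [DecidableEq G] [CommRing G] (B : Finset (Finset G)) : Prop :=
  (∀ b ∈ B, b.card = 3) ∧
    (∀ x y : G, x ≠ y → ∃! b : Finset G, b ∈ B ∧ x ∈ b ∧ y ∈ b) ∧
    (∀ b ∈ B, b.image (fun x => x + 1) ∈ B)

section Rel

variable {G : Type} [DecidableEq G] [CommRing G] [Fintype G]

/-- `R d e` says that `{0, d, e}` is a block. -/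
structure GoodRel (R : G → G → Prop) : Prop where
  ne : ∀ d e, R d e → d ≠ 0 ∧ e ≠ 0 ∧ d ≠ e
  ex : ∀ d, d ≠ 0 → ∃ e, R d e
  uniq : ∀ d e e', R d e → R d e' → e = e'
  symm : ∀ d e, R d e → R e d
  shift : ∀ d e, R d e → R (-d) (e - d)

open Classical in
/-- All translates of the blocks `{0, d, e}`. -/
noncomputable def blocks (R : G → G → Prop) : Finset (Finset G) :=
  Finset.univ.filter (fun b => ∃ x d e, R d e ∧ b = {x, x + d, x + e})

theorem mem_blocks {R : G → G → Prop} {b : Finset G} :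
    b ∈ blocks R ↔ ∃ x d e, R d e ∧ b = {x, x + d, x + e} := by
  simp [blocks]

theorem rebase {R : G → G → Prop} (h : GoodRel R) {b : Finset G} (hb : b ∈ blocks R) {x : G}
    (hx : x ∈ b) : ∃ d e, R d e ∧ b = {x, x + d, x + e} := by
  obtain ⟨z, d, e, hR, rfl⟩ := mem_blocks.1 hb
  simp only [Finset.mem_insert, Finset.mem_singleton] at hx
  rcases hx with rfl | rfl | rfl
  · exact ⟨d, e, hR, rfl⟩
  · refine ⟨-d, e - d, h.shift _ _ hR, ?_⟩
    have h1 : z + d + -d = z := by ring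
    have h2 : z + d + (e - d) = z + e := by ring
    rw [h1, h2, Finset.insert_comm]
  · refine ⟨-e, d - e, h.shift _ _ (h.symm _ _ hR), ?_⟩
    have h1 : z + e + -e = z := by ring
    have h2 : z + e + (d - e) = z + d := by ring
    rw [h1, h2]
    ext w
    simp only [Finset.mem_insert, Finset.mem_singleton]
    tauto

theorem rebase2 {R : G → G → Prop} (h : GoodRel R) {b : Finset G} (hb : b ∈ blocks R) {x y : G}
    (hx : x ∈ b) (hy : y ∈ b) (hxy : x ≠ y) : ∃ e, R (y - x) e ∧ b = {x, y, x + e} := by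
  obtain ⟨d, e, hR, rfl⟩ := rebase h hb hx
  simp only [Finset.mem_insert, Finset.mem_singleton] at hy
  rcases hy with rfl | rfl | rfl
  · exact absurd rfl hxy
  · refine ⟨e, ?_, rfl⟩
    have : x + d - x = d := by ring
    rwa [this]
  · refine ⟨d, ?_, ?_⟩
    · have : x + e - x = e := by ring
      rw [this]; exact h.symm _ _ hR
    · rw [Finset.pair_comm (x + d)]

theorem isCyc_blocks {R : G → G → Prop} (h : GoodRel R) : IsCyc (blocks R) := by
  refine ⟨?_, ?_, ?_⟩
  · intro b hb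
    obtain ⟨z, d, e, hR, rfl⟩ := mem_blocks.1 hb
    obtain ⟨h1, h2, h3⟩ := h.ne _ _ hR
    rw [Finset.card_eq_three]
    refine ⟨z, z + d, z + e, ?_, ?_, ?_, rfl⟩
    · intro hh; apply h1; linear_combination -hh
    · intro hh; apply h2; linear_combination -hh
    · intro hh; apply h3; linear_combination hh
  · intro x y hxy
    obtain ⟨e, he⟩ := h.ex (y - x) (sub_ne_zero.2 hxy.symm)
    refine ⟨{x, y, x + e}, ⟨mem_blocks.2 ⟨x, y - x, e, he, ?_⟩, by simp, by simp⟩, ?_⟩
    · have : x + (y - x) = y := by ring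
      rw [this]
    · rintro b ⟨hb, hx, hy⟩
      obtain ⟨e', he', rfl⟩ := rebase2 h hb hx hy hxy
      rw [h.uniq _ _ _ he he']
  · intro b hb
    obtain ⟨z, d, e, hR, rfl⟩ := mem_blocks.1 hb
    refine mem_blocks.2 ⟨z + 1, d, e, hR, ?_⟩
    simp only [Finset.image_insert, Finset.image_singleton]
    have h1 : z + d + 1 = z + 1 + d := by ring
    have h2 : z + e + 1 = z + 1 + e := by ring
    rw [h1, h2]

theorem rel_of_blocks_eq {R R' : G → G → Prop} (h : GoodRel R) (h' : GoodRel R')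
    (hb : blocks R = blocks R') {d e : G} (hR : R d e) : R' d e := by
  obtain ⟨h1, h2, h3⟩ := h.ne _ _ hR
  have hm : ({0, 0 + d, 0 + e} : Finset G) ∈ blocks R' := hb ▸ mem_blocks.2 ⟨0, d, e, hR, rfl⟩
  obtain ⟨e', he', hq⟩ := rebase2 h' hm (x := 0) (y := d) (by simp) (by simp) h1.symm
  have : e ∈ ({0, d, 0 + e'} : Finset G) := by rw [← hq]; simp
  simp only [Finset.mem_insert, Finset.mem_singleton, zero_add] at this
  rw [sub_zero] at he'
  rcases this with h4 | h4 | h4
  · exact absurd h4 h2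
  · exact absurd h4.symm h3
  · rwa [h4]

end Rel

section Fam

variable {G : Type} [DecidableEq G] [CommRing G] [Fintype G] {ι : Type}

/-- The six differences of the base block `{0, a, a + b}`. -/
def dif (a b : ι → G) (p : ι × Fin 6) : G :=
  ![a p.1, b p.1, a p.1 + b p.1, -a p.1, -b p.1, -(a p.1 + b p.1)] p.2

/-- The third point of the translate of `{0, a, a + b}` that contains `0` and `dif a b p`. -/
def third (a b : ι → G) (p : ι × Fin 6) : G :=
  ![a p.1 + b p.1, -a p.1, a p.1, b p.1, -(a p.1 + b p.1), -b p.1] p.2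

/-- A difference family covering once each `d` with `3 d ≠ 0`. -/
structure Fam (a b : ι → G) : Prop where
  inj : Function.Injective (dif a b)
  ne : ∀ p, 3 * dif a b p ≠ 0
  surj : ∀ d, 3 * d ≠ 0 → ∃ p, dif a b p = d

/-- The relation attached to a difference family. -/
def famRel (a b : ι → G) (d e : G) : Prop :=
  (∃ p, dif a b p = d ∧ third a b p = e) ∨ (3 * d = 0 ∧ d ≠ 0 ∧ e = -d)

theorem third_eq (a b : ι → G) (i : ι) (j : Fin 6) :
    third a b (i, j) = dif a b (i, ![2, 3, 0, 1, 5, 4] j) ∧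
      third a b (i, ![2, 3, 0, 1, 5, 4] j) = dif a b (i, j) ∧
      (![2, 3, 0, 1, 5, 4] : Fin 6 → Fin 6) j ≠ j := by
  fin_cases j <;> simp [third, dif]

theorem shift_eq (a b : ι → G) (i : ι) (j : Fin 6) :
    dif a b (i, ![3, 4, 5, 0, 1, 2] j) = - dif a b (i, j) ∧
      third a b (i, ![3, 4, 5, 0, 1, 2] j) = third a b (i, j) - dif a b (i, j) := by
  fin_cases j <;> simp [third, dif] <;> ring

theorem goodRel_famRel {a b : ι → G} (h : Fam a b) : GoodRel (famRel a b) := by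
  have hne0 : ∀ p, dif a b p ≠ 0 := fun p hp => h.ne p (by rw [hp, mul_zero])
  refine ⟨?_, ?_, ?_, ?_, ?_⟩
  · rintro d e (⟨⟨i, j⟩, rfl, rfl⟩ | ⟨h1, h2, rfl⟩)
    · obtain ⟨h1, -, h3⟩ := third_eq a b i j
      refine ⟨hne0 _, by rw [h1]; exact hne0 _, ?_⟩
      rw [h1]
      intro hh
      exact h3 (congrArg Prod.snd (h.inj hh)).symm
    · refine ⟨h2, neg_ne_zero.2 h2, fun hh => h2 ?_⟩
      linear_combination h1 - hh
  · intro d hd
    by_cases h3 : 3 * d = 0
    · exact ⟨-d, Or.inr ⟨h3, hd, rfl⟩⟩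
    · obtain ⟨p, hp⟩ := h.surj d h3
      exact ⟨_, Or.inl ⟨p, hp, rfl⟩⟩
  · rintro d e e' (⟨p, rfl, rfl⟩ | ⟨h1, h2, rfl⟩) (⟨q, hq, rfl⟩ | ⟨h3, h4, rfl⟩)
    · rw [h.inj hq]
    · exact absurd h3 (h.ne p)
    · exact absurd (hq ▸ h1) (h.ne q)
    · rfl
  · rintro d e (⟨⟨i, j⟩, rfl, rfl⟩ | ⟨h1, h2, rfl⟩)
    · obtain ⟨h1, h2, -⟩ := third_eq a b i j
      exact Or.inl ⟨_, h1.symm, h2⟩
    · exact Or.inr ⟨by linear_combination -h1, neg_ne_zero.2 h2, by ring⟩
  · rintro d e (⟨⟨i, j⟩, rfl, rfl⟩ | ⟨h1, h2, rfl⟩)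
    · obtain ⟨h1, h2⟩ := shift_eq a b i j
      exact Or.inl ⟨_, h1, h2⟩
    · exact Or.inr ⟨by linear_combination -h1, neg_ne_zero.2 h2, by linear_combination -h1⟩

/-- Exchange `a i` and `b i` where `ε i` is true. -/
def flp (ε : ι → Bool) (a b : ι → G) (i : ι) : G := if ε i then b i else a i

/-- The matching relabelling of the differences. -/
def flpIdx (ε : ι → Bool) (p : ι × Fin 6) : ι × Fin 6 :=
  (p.1, if ε p.1 then ![1, 0, 2, 4, 3, 5] p.2 else p.2)

theorem flpIdx_invol (ε : ι → Bool) : Function.Involutive (flpIdx ε) := by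
  rintro ⟨i, j⟩
  cases hi : ε i
  · simp [flpIdx, hi]
  · fin_cases j <;> simp [flpIdx, hi]

theorem dif_flp (ε : ι → Bool) (a b : ι → G) (p : ι × Fin 6) :
    dif (flp ε a b) (flp ε b a) p = dif a b (flpIdx ε p) := by
  obtain ⟨i, j⟩ := p
  cases hi : ε i
  · simp [flpIdx, dif, flp, hi]
  · fin_cases j <;> simp [flpIdx, dif, flp, hi, add_comm]

theorem Fam.flip {a b : ι → G} (h : Fam a b) (ε : ι → Bool) : Fam (flp ε a b) (flp ε b a) := by
  refine ⟨?_, ?_, ?_⟩
  · intro p q hpq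
    rw [dif_flp, dif_flp] at hpq
    exact (flpIdx_invol ε).injective (h.inj hpq)
  · intro p
    rw [dif_flp]; exact h.ne _
  · intro d hd
    obtain ⟨p, hp⟩ := h.surj d hd
    exact ⟨flpIdx ε p, by rw [dif_flp, flpIdx_invol ε p, hp]⟩

theorem flip_injective {a b : ι → G} (h : Fam a b) :
    Function.Injective (fun ε : ι → Bool => blocks (famRel (flp ε a b) (flp ε b a))) := by
  intro ε ε' hb
  funext i
  have g := goodRel_famRel (h.flip ε)
  have g' := goodRel_famRel (h.flip ε')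
  have r1 : famRel (flp ε a b) (flp ε b a) (a i + b i) (flp ε a b i) := by
    refine Or.inl ⟨(i, 2), ?_, by simp [third]⟩
    cases hi : ε i <;> simp [dif, flp, hi, add_comm]
  have r2 : famRel (flp ε' a b) (flp ε' b a) (a i + b i) (flp ε' a b i) := by
    refine Or.inl ⟨(i, 2), ?_, by simp [third]⟩
    cases hi : ε' i <;> simp [dif, flp, hi, add_comm]
  have r3 := g'.uniq _ _ _ (rel_of_blocks_eq g g' hb r1) r2
  have hab : a i ≠ b i := by
    intro hh
    have : dif a b (i, 0) = dif a b (i, 1) := by simpa [dif] using hh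
    simpa using h.inj this
  cases hi : ε i <;> cases hi' : ε' i <;> simp [flp, hi, hi'] at r3 ⊢
  · exact hab r3
  · exact hab r3.symm

end Fam

end Pool.Agent.P.MP_72c5f4_co
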