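import Mathlib

namespace Pool.Agent.P.MP_72c5f4_co

/-- Solutions of the Heffter difference problems: the triples `(r, x r, x r + r)`, `1 ≤ r ≤ k`. -/
structure Heffter (k n : ℕ) (x : ℕ → ℕ) : Prop where
  one : ∀ r, 1 ≤ r → r ≤ k →
    k < x r ∧ 2 * (x r + r) ≤ n + 1 ∧ 3 * x r ≠ n ∧ 3 * (x r + r) ≠ n
  two : ∀ r s, 1 ≤ r → r ≤ k → 1 ≤ s → s ≤ k →
    (x r = x s → r = s) ∧ (x r + r = x s + s → r = s) ∧ x r ≠ x s + s ∧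
      x r + r + (x s + s) ≠ n ∧ x r + (x s + s) ≠ n ∧ x r + x s ≠ n

theorem heff_S0 (t : ℕ) : ∃ x, Heffter (4 * t + 8) (24 * t + 49) x := by
  have h : ∀ r : ℕ, ∃ y : ℕ, 1 ≤ r → r ≤ (4 * t + 8) →
      (r = (2 * t + 5) ∧ y = (5 * t + 9)) ∨
      (r = 1 ∧ y = (5 * t + 10)) ∨
      (r = (2 * t + 3) ∧ y = (6 * t + 12)) ∨
      (r = (4 * t + 7) ∧ y = (6 * t + 13)) ∨
      (r % 2 = 0 ∧ 2 ≤ r ∧ r ≤ (4 * t + 8) ∧ 2 * y + r = (20 * t + 40)) ∨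
      (r % 2 = 1 ∧ (2 * t + 7) ≤ r ∧ r ≤ (4 * t + 5) ∧ 2 * y + r = (12 * t + 23)) ∨
      (r % 2 = 1 ∧ 3 ≤ r ∧ r ≤ (2 * t + 1) ∧ 2 * y + r = (12 * t + 25)) := by
    intro r
    by_cases h0 : r = (2 * t + 5)
    · exact ⟨(5 * t + 9), fun _ _ => Or.inl (by omega)⟩
    by_cases h1 : r = 1
    · exact ⟨(5 * t + 10), fun _ _ => Or.inr (Or.inl (by omega))⟩
    by_cases h2 : r = (2 * t + 3)
    · exact ⟨(6 * t + 12), fun _ _ => Or.inr (Or.inr (Or.inl (by omega)))⟩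
    by_cases h3 : r = (4 * t + 7)
    · exact ⟨(6 * t + 13), fun _ _ => Or.inr (Or.inr (Or.inr (Or.inl (by omega))))⟩
    by_cases h4 : r % 2 = 0 ∧ 2 ≤ r ∧ r ≤ (4 * t + 8)
    · exact ⟨((20 * t + 40) - r) / 2, fun _ _ => Or.inr (Or.inr (Or.inr (Or.inr (Or.inl (by omega)))))⟩
    by_cases h5 : r % 2 = 1 ∧ (2 * t + 7) ≤ r ∧ r ≤ (4 * t + 5)
    · exact ⟨((12 * t + 23) - r) / 2, fun _ _ => Or.inr (Or.inr (Or.inr (Or.inr (Or.inr (Or.inl (by omega))))))⟩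
    by_cases h6 : r % 2 = 1 ∧ 3 ≤ r ∧ r ≤ (2 * t + 1)
    · exact ⟨((12 * t + 25) - r) / 2, fun _ _ => Or.inr (Or.inr (Or.inr (Or.inr (Or.inr (Or.inr (by omega))))))⟩
    exact ⟨0, fun _ _ => by exfalso; omega⟩
  choose x hx using h
  refine ⟨x, ⟨fun r h1 h2 => ?_, fun r s h1 h2 h3 h4 => ?_⟩⟩
  · rcases hx r h1 h2 with h | h | h | h | h | h | h <;> refine ⟨?_, ?_, ?_, ?_⟩ <;> omega
  · rcases hx r h1 h2 with h | h | h | h | h | h | h <;> rcases hx s h3 h4 with h' | h' | h' | h' | h' | h' | h' <;>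
      refine ⟨?_, ?_, ?_, ?_, ?_, ?_⟩ <;> omega

theorem heff_S1 (t : ℕ) : ∃ x, Heffter (4 * t + 9) (24 * t + 55) x := by
  have h : ∀ r : ℕ, ∃ y : ℕ, 1 ≤ r → r ≤ (4 * t + 9) →
      (r = 1 ∧ y = (5 * t + 12)) ∨
      (r = (4 * t + 9) ∧ y = (6 * t + 14)) ∨
      (r = (2 * t + 3) ∧ y = (6 * t + 15)) ∨
      (r % 2 = 0 ∧ 2 ≤ r ∧ r ≤ (4 * t + 8) ∧ 2 * y + r = (20 * t + 46)) ∨
      (r % 2 = 1 ∧ (2 * t + 5) ≤ r ∧ r ≤ (4 * t + 7) ∧ 2 * y + r = (12 * t + 27)) ∨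
      (r % 2 = 1 ∧ 3 ≤ r ∧ r ≤ (2 * t + 1) ∧ 2 * y + r = (12 * t + 29)) := by
    intro r
    by_cases h0 : r = 1
    · exact ⟨(5 * t + 12), fun _ _ => Or.inl (by omega)⟩
    by_cases h1 : r = (4 * t + 9)
    · exact ⟨(6 * t + 14), fun _ _ => Or.inr (Or.inl (by omega))⟩
    by_cases h2 : r = (2 * t + 3)
    · exact ⟨(6 * t + 15), fun _ _ => Or.inr (Or.inr (Or.inl (by omega)))⟩
    by_cases h3 : r % 2 = 0 ∧ 2 ≤ r ∧ r ≤ (4 * t + 8)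
    · exact ⟨((20 * t + 46) - r) / 2, fun _ _ => Or.inr (Or.inr (Or.inr (Or.inl (by omega))))⟩
    by_cases h4 : r % 2 = 1 ∧ (2 * t + 5) ≤ r ∧ r ≤ (4 * t + 7)
    · exact ⟨((12 * t + 27) - r) / 2, fun _ _ => Or.inr (Or.inr (Or.inr (Or.inr (Or.inl (by omega)))))⟩
    by_cases h5 : r % 2 = 1 ∧ 3 ≤ r ∧ r ≤ (2 * t + 1)
    · exact ⟨((12 * t + 29) - r) / 2, fun _ _ => Or.inr (Or.inr (Or.inr (Or.inr (Or.inr (by omega)))))⟩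
    exact ⟨0, fun _ _ => by exfalso; omega⟩
  choose x hx using h
  refine ⟨x, ⟨fun r h1 h2 => ?_, fun r s h1 h2 h3 h4 => ?_⟩⟩
  · rcases hx r h1 h2 with h | h | h | h | h | h <;> refine ⟨?_, ?_, ?_, ?_⟩ <;> omega
  · rcases hx r h1 h2 with h | h | h | h | h | h <;> rcases hx s h3 h4 with h' | h' | h' | h' | h' | h' <;>
      refine ⟨?_, ?_, ?_, ?_, ?_, ?_⟩ <;> omega

theorem heff_H2 (t : ℕ) : ∃ x, Heffter (4 * t + 10) (24 * t + 61) x := by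
  have h : ∀ r : ℕ, ∃ y : ℕ, 1 ≤ r → r ≤ (4 * t + 10) →
      (r = (4 * t + 9) ∧ y = (6 * t + 15)) ∨
      (r = (2 * t + 5) ∧ y = (8 * t + 20)) ∨
      (r = (4 * t + 10) ∧ y = (8 * t + 21)) ∨
      (r = 1 ∧ y = (11 * t + 27)) ∨
      (r % 2 = 0 ∧ 2 ≤ r ∧ r ≤ (4 * t + 8) ∧ 2 * y + r = (12 * t + 30)) ∨
      (r % 2 = 1 ∧ (2 * t + 7) ≤ r ∧ r ≤ (4 * t + 7) ∧ 2 * y + r = (20 * t + 51)) ∨
      (r % 2 = 1 ∧ 3 ≤ r ∧ r ≤ (2 * t + 3) ∧ 2 * y + r = (20 * t + 49)) := by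
    intro r
    by_cases h0 : r = (4 * t + 9)
    · exact ⟨(6 * t + 15), fun _ _ => Or.inl (by omega)⟩
    by_cases h1 : r = (2 * t + 5)
    · exact ⟨(8 * t + 20), fun _ _ => Or.inr (Or.inl (by omega))⟩
    by_cases h2 : r = (4 * t + 10)
    · exact ⟨(8 * t + 21), fun _ _ => Or.inr (Or.inr (Or.inl (by omega)))⟩
    by_cases h3 : r = 1
    · exact ⟨(11 * t + 27), fun _ _ => Or.inr (Or.inr (Or.inr (Or.inl (by omega))))⟩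
    by_cases h4 : r % 2 = 0 ∧ 2 ≤ r ∧ r ≤ (4 * t + 8)
    · exact ⟨((12 * t + 30) - r) / 2, fun _ _ => Or.inr (Or.inr (Or.inr (Or.inr (Or.inl (by omega)))))⟩
    by_cases h5 : r % 2 = 1 ∧ (2 * t + 7) ≤ r ∧ r ≤ (4 * t + 7)
    · exact ⟨((20 * t + 51) - r) / 2, fun _ _ => Or.inr (Or.inr (Or.inr (Or.inr (Or.inr (Or.inl (by omega))))))⟩
    by_cases h6 : r % 2 = 1 ∧ 3 ≤ r ∧ r ≤ (2 * t + 3)
    · exact ⟨((20 * t + 49) - r) / 2, fun _ _ => Or.inr (Or.inr (Or.inr (Or.inr (Or.inr (Or.inr (by omega))))))⟩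
    exact ⟨0, fun _ _ => by exfalso; omega⟩
  choose x hx using h
  refine ⟨x, ⟨fun r h1 h2 => ?_, fun r s h1 h2 h3 h4 => ?_⟩⟩
  · rcases hx r h1 h2 with h | h | h | h | h | h | h <;> refine ⟨?_, ?_, ?_, ?_⟩ <;> omega
  · rcases hx r h1 h2 with h | h | h | h | h | h | h <;> rcases hx s h3 h4 with h' | h' | h' | h' | h' | h' | h' <;>
      refine ⟨?_, ?_, ?_, ?_, ?_, ?_⟩ <;> omega

theorem heff_H3 (t : ℕ) : ∃ x, Heffter (4 * t + 7) (24 * t + 43) x := by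
  have h : ∀ r : ℕ, ∃ y : ℕ, 1 ≤ r → r ≤ (4 * t + 7) →
      (r = (2 * t + 5) ∧ y = (5 * t + 8)) ∨
      (r = 1 ∧ y = (5 * t + 9)) ∨
      (r = (2 * t + 3) ∧ y = (6 * t + 11)) ∨
      (r = (4 * t + 6) ∧ y = (6 * t + 12)) ∨
      (r = (4 * t + 7) ∧ y = (8 * t + 15)) ∨
      (r % 2 = 0 ∧ 2 ≤ r ∧ r ≤ (4 * t + 4) ∧ 2 * y + r = (20 * t + 36)) ∨
      (r % 2 = 1 ∧ (2 * t + 7) ≤ r ∧ r ≤ (4 * t + 5) ∧ 2 * y + r = (12 * t + 21)) ∨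
      (r % 2 = 1 ∧ 3 ≤ r ∧ r ≤ (2 * t + 1) ∧ 2 * y + r = (12 * t + 23)) := by
    intro r
    by_cases h0 : r = (2 * t + 5)
    · exact ⟨(5 * t + 8), fun _ _ => Or.inl (by omega)⟩
    by_cases h1 : r = 1
    · exact ⟨(5 * t + 9), fun _ _ => Or.inr (Or.inl (by omega))⟩
    by_cases h2 : r = (2 * t + 3)
    · exact ⟨(6 * t + 11), fun _ _ => Or.inr (Or.inr (Or.inl (by omega)))⟩
    by_cases h3 : r = (4 * t + 6)
    · exact ⟨(6 * t + 12), fun _ _ => Or.inr (Or.inr (Or.inr (Or.inl (by omega))))⟩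
    by_cases h4 : r = (4 * t + 7)
    · exact ⟨(8 * t + 15), fun _ _ => Or.inr (Or.inr (Or.inr (Or.inr (Or.inl (by omega)))))⟩
    by_cases h5 : r % 2 = 0 ∧ 2 ≤ r ∧ r ≤ (4 * t + 4)
    · exact ⟨((20 * t + 36) - r) / 2, fun _ _ => Or.inr (Or.inr (Or.inr (Or.inr (Or.inr (Or.inl (by omega))))))⟩
    by_cases h6 : r % 2 = 1 ∧ (2 * t + 7) ≤ r ∧ r ≤ (4 * t + 5)
    · exact ⟨((12 * t + 21) - r) / 2, fun _ _ => Or.inr (Or.inr (Or.inr (Or.inr (Or.inr (Or.inr (Or.inl (by omega)))))))⟩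
    by_cases h7 : r % 2 = 1 ∧ 3 ≤ r ∧ r ≤ (2 * t + 1)
    · exact ⟨((12 * t + 23) - r) / 2, fun _ _ => Or.inr (Or.inr (Or.inr (Or.inr (Or.inr (Or.inr (Or.inr (by omega)))))))⟩
    exact ⟨0, fun _ _ => by exfalso; omega⟩
  choose x hx using h
  refine ⟨x, ⟨fun r h1 h2 => ?_, fun r s h1 h2 h3 h4 => ?_⟩⟩
  · rcases hx r h1 h2 with h | h | h | h | h | h | h | h <;> refine ⟨?_, ?_, ?_, ?_⟩ <;> omega
  · rcases hx r h1 h2 with h | h | h | h | h | h | h | h <;> rcases hx s h3 h4 with h' | h' | h' | h' | h' | h' | h' | h' <;>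
      refine ⟨?_, ?_, ?_, ?_, ?_, ?_⟩ <;> omega

theorem heff_R0 (t : ℕ) : ∃ x, Heffter (4 * t + 8) (24 * t + 51) x := by
  have h : ∀ r : ℕ, ∃ y : ℕ, 1 ≤ r → r ≤ (4 * t + 8) →
      (r = 1 ∧ y = (6 * t + 11)) ∨
      (r = (2 * t + 5) ∧ y = (7 * t + 14)) ∨
      (r = (4 * t + 8) ∧ y = (7 * t + 15)) ∨
      (r = (2 * t + 4) ∧ y = (10 * t + 21)) ∨
      (r % 2 = 1 ∧ (2 * t + 7) ≤ r ∧ r ≤ (4 * t + 7) ∧ 2 * y + r = (12 * t + 25)) ∨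
      (r % 2 = 1 ∧ 3 ≤ r ∧ r ≤ (2 * t + 3) ∧ 2 * y + r = (12 * t + 23)) ∨
      (r % 2 = 0 ∧ (2 * t + 6) ≤ r ∧ r ≤ (4 * t + 6) ∧ 2 * y + r = (20 * t + 42)) ∨
      (r % 2 = 0 ∧ 2 ≤ r ∧ r ≤ (2 * t + 2) ∧ 2 * y + r = (20 * t + 42)) := by
    intro r
    by_cases h0 : r = 1
    · exact ⟨(6 * t + 11), fun _ _ => Or.inl (by omega)⟩
    by_cases h1 : r = (2 * t + 5)
    · exact ⟨(7 * t + 14), fun _ _ => Or.inr (Or.inl (by omega))⟩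
    by_cases h2 : r = (4 * t + 8)
    · exact ⟨(7 * t + 15), fun _ _ => Or.inr (Or.inr (Or.inl (by omega)))⟩
    by_cases h3 : r = (2 * t + 4)
    · exact ⟨(10 * t + 21), fun _ _ => Or.inr (Or.inr (Or.inr (Or.inl (by omega))))⟩
    by_cases h4 : r % 2 = 1 ∧ (2 * t + 7) ≤ r ∧ r ≤ (4 * t + 7)
    · exact ⟨((12 * t + 25) - r) / 2, fun _ _ => Or.inr (Or.inr (Or.inr (Or.inr (Or.inl (by omega)))))⟩
    by_cases h5 : r % 2 = 1 ∧ 3 ≤ r ∧ r ≤ (2 * t + 3)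
    · exact ⟨((12 * t + 23) - r) / 2, fun _ _ => Or.inr (Or.inr (Or.inr (Or.inr (Or.inr (Or.inl (by omega))))))⟩
    by_cases h6 : r % 2 = 0 ∧ (2 * t + 6) ≤ r ∧ r ≤ (4 * t + 6)
    · exact ⟨((20 * t + 42) - r) / 2, fun _ _ => Or.inr (Or.inr (Or.inr (Or.inr (Or.inr (Or.inr (Or.inl (by omega)))))))⟩
    by_cases h7 : r % 2 = 0 ∧ 2 ≤ r ∧ r ≤ (2 * t + 2)
    · exact ⟨((20 * t + 42) - r) / 2, fun _ _ => Or.inr (Or.inr (Or.inr (Or.inr (Or.inr (Or.inr (Or.inr (by omega)))))))⟩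
    exact ⟨0, fun _ _ => by exfalso; omega⟩
  choose x hx using h
  refine ⟨x, ⟨fun r h1 h2 => ?_, fun r s h1 h2 h3 h4 => ?_⟩⟩
  · rcases hx r h1 h2 with h | h | h | h | h | h | h | h <;> refine ⟨?_, ?_, ?_, ?_⟩ <;> omega
  · rcases hx r h1 h2 with h | h | h | h | h | h | h | h <;> rcases hx s h3 h4 with h' | h' | h' | h' | h' | h' | h' | h' <;>
      refine ⟨?_, ?_, ?_, ?_, ?_, ?_⟩ <;> omega

theorem heff_R3 (t : ℕ) : ∃ x, Heffter (4 * t + 7) (24 * t + 45) x := by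
  have h : ∀ r : ℕ, ∃ y : ℕ, 1 ≤ r → r ≤ (4 * t + 7) →
      (r = (4 * t + 7) ∧ y = (6 * t + 11)) ∨
      (r = (2 * t + 5) ∧ y = (9 * t + 17)) ∨
      (r = (2 * t + 3) ∧ y = (8 * t + 16)) ∨
      (r = 1 ∧ y = (11 * t + 20)) ∨
      (r % 2 = 0 ∧ 2 ≤ r ∧ r ≤ (4 * t + 6) ∧ 2 * y + r = (12 * t + 22)) ∨
      (r % 2 = 1 ∧ (2 * t + 7) ≤ r ∧ r ≤ (4 * t + 5) ∧ 2 * y + r = (20 * t + 39)) ∨
      (r % 2 = 1 ∧ 3 ≤ r ∧ r ≤ (2 * t + 1) ∧ 2 * y + r = (20 * t + 37)) := by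
    intro r
    by_cases h0 : r = (4 * t + 7)
    · exact ⟨(6 * t + 11), fun _ _ => Or.inl (by omega)⟩
    by_cases h1 : r = (2 * t + 5)
    · exact ⟨(9 * t + 17), fun _ _ => Or.inr (Or.inl (by omega))⟩
    by_cases h2 : r = (2 * t + 3)
    · exact ⟨(8 * t + 16), fun _ _ => Or.inr (Or.inr (Or.inl (by omega)))⟩
    by_cases h3 : r = 1
    · exact ⟨(11 * t + 20), fun _ _ => Or.inr (Or.inr (Or.inr (Or.inl (by omega))))⟩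
    by_cases h4 : r % 2 = 0 ∧ 2 ≤ r ∧ r ≤ (4 * t + 6)
    · exact ⟨((12 * t + 22) - r) / 2, fun _ _ => Or.inr (Or.inr (Or.inr (Or.inr (Or.inl (by omega)))))⟩
    by_cases h5 : r % 2 = 1 ∧ (2 * t + 7) ≤ r ∧ r ≤ (4 * t + 5)
    · exact ⟨((20 * t + 39) - r) / 2, fun _ _ => Or.inr (Or.inr (Or.inr (Or.inr (Or.inr (Or.inl (by omega))))))⟩
    by_cases h6 : r % 2 = 1 ∧ 3 ≤ r ∧ r ≤ (2 * t + 1)
    · exact ⟨((20 * t + 37) - r) / 2, fun _ _ => Or.inr (Or.inr (Or.inr (Or.inr (Or.inr (Or.inr (by omega))))))⟩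
    exact ⟨0, fun _ _ => by exfalso; omega⟩
  choose x hx using h
  refine ⟨x, ⟨fun r h1 h2 => ?_, fun r s h1 h2 h3 h4 => ?_⟩⟩
  · rcases hx r h1 h2 with h | h | h | h | h | h | h <;> refine ⟨?_, ?_, ?_, ?_⟩ <;> omega
  · rcases hx r h1 h2 with h | h | h | h | h | h | h <;> rcases hx s h3 h4 with h' | h' | h' | h' | h' | h' | h' <;>
      refine ⟨?_, ?_, ?_, ?_, ?_, ?_⟩ <;> omega

theorem heff_K1 (t : ℕ) : ∃ x, Heffter (4 * t + 9) (24 * t + 57) x := by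
  have h : ∀ r : ℕ, ∃ y : ℕ, 1 ≤ r → r ≤ (4 * t + 9) →
      (r = (4 * t + 9) ∧ y = (6 * t + 14)) ∨
      (r = (2 * t + 7) ∧ y = (10 * t + 22)) ∨
      (r = 1 ∧ y = (11 * t + 26)) ∨
      (r % 2 = 0 ∧ 2 ≤ r ∧ r ≤ (4 * t + 8) ∧ 2 * y + r = (12 * t + 28)) ∨
      (r % 2 = 1 ∧ 3 ≤ r ∧ r ≤ (2 * t + 5) ∧ 2 * y + r = (20 * t + 45)) ∨
      (r % 2 = 1 ∧ (2 * t + 9) ≤ r ∧ r ≤ (4 * t + 7) ∧ 2 * y + r = (20 * t + 47)) := by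
    intro r
    by_cases h0 : r = (4 * t + 9)
    · exact ⟨(6 * t + 14), fun _ _ => Or.inl (by omega)⟩
    by_cases h1 : r = (2 * t + 7)
    · exact ⟨(10 * t + 22), fun _ _ => Or.inr (Or.inl (by omega))⟩
    by_cases h2 : r = 1
    · exact ⟨(11 * t + 26), fun _ _ => Or.inr (Or.inr (Or.inl (by omega)))⟩
    by_cases h3 : r % 2 = 0 ∧ 2 ≤ r ∧ r ≤ (4 * t + 8)
    · exact ⟨((12 * t + 28) - r) / 2, fun _ _ => Or.inr (Or.inr (Or.inr (Or.inl (by omega))))⟩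
    by_cases h4 : r % 2 = 1 ∧ 3 ≤ r ∧ r ≤ (2 * t + 5)
    · exact ⟨((20 * t + 45) - r) / 2, fun _ _ => Or.inr (Or.inr (Or.inr (Or.inr (Or.inl (by omega)))))⟩
    by_cases h5 : r % 2 = 1 ∧ (2 * t + 9) ≤ r ∧ r ≤ (4 * t + 7)
    · exact ⟨((20 * t + 47) - r) / 2, fun _ _ => Or.inr (Or.inr (Or.inr (Or.inr (Or.inr (by omega)))))⟩
    exact ⟨0, fun _ _ => by exfalso; omega⟩
  choose x hx using h
  refine ⟨x, ⟨fun r h1 h2 => ?_, fun r s h1 h2 h3 h4 => ?_⟩⟩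
  · rcases hx r h1 h2 with h | h | h | h | h | h <;> refine ⟨?_, ?_, ?_, ?_⟩ <;> omega
  · rcases hx r h1 h2 with h | h | h | h | h | h <;> rcases hx s h3 h4 with h' | h' | h' | h' | h' | h' <;>
      refine ⟨?_, ?_, ?_, ?_, ?_, ?_⟩ <;> omega

theorem heff_K2 (t : ℕ) : ∃ x, Heffter (4 * t + 10) (24 * t + 63) x := by
  have h : ∀ r : ℕ, ∃ y : ℕ, 1 ≤ r → r ≤ (4 * t + 10) →
      (r = (4 * t + 10) ∧ y = (6 * t + 15)) ∨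
      (r = (4 * t + 8) ∧ y = (6 * t + 16)) ∨
      (r = (2 * t + 4) ∧ y = (8 * t + 22)) ∨
      (r = 1 ∧ y = (11 * t + 27)) ∨
      (r = 2 ∧ y = (12 * t + 30)) ∨
      (r % 2 = 1 ∧ 3 ≤ r ∧ r ≤ (4 * t + 9) ∧ 2 * y + r = (12 * t + 31)) ∨
      (r % 2 = 0 ∧ (2 * t + 6) ≤ r ∧ r ≤ (4 * t + 6) ∧ 2 * y + r = (20 * t + 52)) ∨
      (r % 2 = 0 ∧ 4 ≤ r ∧ r ≤ (2 * t + 2) ∧ 2 * y + r = (20 * t + 50)) := by
    intro r
    by_cases h0 : r = (4 * t + 10)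
    · exact ⟨(6 * t + 15), fun _ _ => Or.inl (by omega)⟩
    by_cases h1 : r = (4 * t + 8)
    · exact ⟨(6 * t + 16), fun _ _ => Or.inr (Or.inl (by omega))⟩
    by_cases h2 : r = (2 * t + 4)
    · exact ⟨(8 * t + 22), fun _ _ => Or.inr (Or.inr (Or.inl (by omega)))⟩
    by_cases h3 : r = 1
    · exact ⟨(11 * t + 27), fun _ _ => Or.inr (Or.inr (Or.inr (Or.inl (by omega))))⟩
    by_cases h4 : r = 2
    · exact ⟨(12 * t + 30), fun _ _ => Or.inr (Or.inr (Or.inr (Or.inr (Or.inl (by omega)))))⟩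
    by_cases h5 : r % 2 = 1 ∧ 3 ≤ r ∧ r ≤ (4 * t + 9)
    · exact ⟨((12 * t + 31) - r) / 2, fun _ _ => Or.inr (Or.inr (Or.inr (Or.inr (Or.inr (Or.inl (by omega))))))⟩
    by_cases h6 : r % 2 = 0 ∧ (2 * t + 6) ≤ r ∧ r ≤ (4 * t + 6)
    · exact ⟨((20 * t + 52) - r) / 2, fun _ _ => Or.inr (Or.inr (Or.inr (Or.inr (Or.inr (Or.inr (Or.inl (by omega)))))))⟩
    by_cases h7 : r % 2 = 0 ∧ 4 ≤ r ∧ r ≤ (2 * t + 2)
    · exact ⟨((20 * t + 50) - r) / 2, fun _ _ => Or.inr (Or.inr (Or.inr (Or.inr (Or.inr (Or.inr (Or.inr (by omega)))))))⟩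
    exact ⟨0, fun _ _ => by exfalso; omega⟩
  choose x hx using h
  refine ⟨x, ⟨fun r h1 h2 => ?_, fun r s h1 h2 h3 h4 => ?_⟩⟩
  · rcases hx r h1 h2 with h | h | h | h | h | h | h | h <;> refine ⟨?_, ?_, ?_, ?_⟩ <;> omega
  · rcases hx r h1 h2 with h | h | h | h | h | h | h | h <;> rcases hx s h3 h4 with h' | h' | h' | h' | h' | h' | h' | h' <;>
      refine ⟨?_, ?_, ?_, ?_, ?_, ?_⟩ <;> omega

theorem heff_exists (k : ℕ) (hk : 8 ≤ k) (n : ℕ) (hn : n = 6 * k + 1 ∨ n = 6 * k + 3) :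
    ∃ x, Heffter k n x := by
  have h4 : k % 4 = 0 ∨ k % 4 = 1 ∨ k % 4 = 2 ∨ k % 4 = 3 := by omega
  rcases hn with hn | hn
  · rcases h4 with h | h | h | h
    · obtain ⟨t, rfl⟩ : ∃ t, k = 4 * t + 8 := ⟨(k - 8) / 4, by omega⟩
      have := heff_S0 t
      rwa [show 24 * t + 49 = n by omega] at this
    · obtain ⟨t, rfl⟩ : ∃ t, k = 4 * t + 9 := ⟨(k - 9) / 4, by omega⟩
      have := heff_S1 t
      rwa [show 24 * t + 55 = n by omega] at this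
    · obtain ⟨t, rfl⟩ : ∃ t, k = 4 * t + 10 := ⟨(k - 10) / 4, by omega⟩
      have := heff_H2 t
      rwa [show 24 * t + 61 = n by omega] at this
    · obtain ⟨t, rfl⟩ : ∃ t, k = 4 * t + 7 := ⟨(k - 7) / 4, by omega⟩
      have := heff_H3 t
      rwa [show 24 * t + 43 = n by omega] at this
  · rcases h4 with h | h | h | h
    · obtain ⟨t, rfl⟩ : ∃ t, k = 4 * t + 8 := ⟨(k - 8) / 4, by omega⟩
      have := heff_R0 t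
      rwa [show 24 * t + 51 = n by omega] at this
    · obtain ⟨t, rfl⟩ : ∃ t, k = 4 * t + 9 := ⟨(k - 9) / 4, by omega⟩
      have := heff_K1 t
      rwa [show 24 * t + 57 = n by omega] at this
    · obtain ⟨t, rfl⟩ : ∃ t, k = 4 * t + 10 := ⟨(k - 10) / 4, by omega⟩
      have := heff_K2 t
      rwa [show 24 * t + 63 = n by omega] at this
    · obtain ⟨t, rfl⟩ : ∃ t, k = 4 * t + 7 := ⟨(k - 7) / 4, by omega⟩
      have := heff_R3 t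
      rwa [show 24 * t + 45 = n by omega] at this

end Pool.Agent.P.MP_72c5f4_co
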