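import Mathlib
import Pool.Agent.P.MP_72c5f4_co.Heffter
import Pool.Agent.P.MP_72c5f4_co.Design
import Pool.Agent.P.MP_72c5f4_co.Count

namespace Pool.Agent.P.MP_72c5f4_co

/-- The six differences as natural numbers below `n`. -/
def difN (n : ℕ) (x : ℕ → ℕ) (r : ℕ) (j : Fin 6) : ℕ :=
  ![r, x r, r + x r, n - r, n - x r, n - (r + x r)] j

theorem fam_of_heffter {k n : ℕ} [NeZero n] {x : ℕ → ℕ} (hk : 1 ≤ k)
    (hn : n = 6 * k + 1 ∨ n = 6 * k + 3) (h : Heffter k n x) :
    Fam (fun i : Fin k => ((i.1 + 1 : ℕ) : ZMod n)) (fun i => ((x (i.1 + 1) : ℕ) : ZMod n)) := by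
  classical
  set a : Fin k → ZMod n := fun i => ((i.1 + 1 : ℕ) : ZMod n) with ha
  set b : Fin k → ZMod n := fun i => ((x (i.1 + 1) : ℕ) : ZMod n) with hb
  have hneg : ∀ m : ℕ, m ≤ n → ((n - m : ℕ) : ZMod n) = - (m : ZMod n) := by
    intro m hm
    rw [Nat.cast_sub hm]; simp
  have hcast : ∀ (i : Fin k) (j : Fin 6), dif a b (i, j) = (difN n x (i.1 + 1) j : ℕ) := by
    intro i j
    have h1 := h.one (i.1 + 1) (by omega) (by omega)
    have hi := i.2
    fin_cases j
    · simp [dif, difN, ha]
    · simp [dif, difN, hb]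
    · simp [dif, difN, ha, hb]
    · simp only [dif, difN, ha]
      simp [hneg (i.1 + 1) (by omega)]
    · simp only [dif, difN, hb]
      simp [hneg (x (i.1 + 1)) (by omega)]
    · simp only [dif, difN, ha, hb]
      simp [hneg (i.1 + 1 + x (i.1 + 1)) (by omega)]
  have hrange : ∀ (i : Fin k) (j : Fin 6), 0 < difN n x (i.1 + 1) j ∧ difN n x (i.1 + 1) j < n ∧
      3 * difN n x (i.1 + 1) j ≠ n ∧ 3 * difN n x (i.1 + 1) j ≠ 2 * n := by
    intro i j
    have h1 := h.one (i.1 + 1) (by omega) (by omega)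
    have hi := i.2
    fin_cases j <;> simp only [difN] <;> simp <;> omega
  have hinjN : ∀ (i i' : Fin k) (j j' : Fin 6),
      difN n x (i.1 + 1) j = difN n x (i'.1 + 1) j' → i = i' ∧ j = j' := by
    intro i i' j j'
    have h1 := h.one (i.1 + 1) (by omega) (by omega)
    have h1' := h.one (i'.1 + 1) (by omega) (by omega)
    have h2 := h.two (i.1 + 1) (i'.1 + 1) (by omega) (by omega) (by omega) (by omega)
    have h2' := h.two (i'.1 + 1) (i.1 + 1) (by omega) (by omega) (by omega) (by omega)
    have hi := i.2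
    have hi' := i'.2
    rw [Fin.ext_iff]
    fin_cases j <;> fin_cases j' <;> simp only [difN] <;> simp <;> omega
  have hinj : Function.Injective (dif a b) := by
    rintro ⟨i, j⟩ ⟨i', j'⟩ hh
    rw [hcast, hcast, ZMod.natCast_eq_natCast_iff'] at hh
    rw [Nat.mod_eq_of_lt (hrange i j).2.1, Nat.mod_eq_of_lt (hrange i' j').2.1] at hh
    obtain ⟨rfl, rfl⟩ := hinjN _ _ _ _ hh
    rfl
  have h3 : ∀ m : ℕ, m < n → ((3 * (m : ZMod n) = 0) ↔ (m = 0 ∨ 3 * m = n ∨ 3 * m = 2 * n)) := by
    intro m hm
    have : (3 * (m : ZMod n)) = ((3 * m : ℕ) : ZMod n) := by push_cast; ring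
    rw [this, ZMod.natCast_eq_zero_iff]
    constructor
    · rintro ⟨c, hc⟩
      have hc3 : c < 3 := by
        by_contra hcon
        have : n * 3 ≤ n * c := Nat.mul_le_mul_left n (by omega)
        omega
      interval_cases c <;> omega
    · rintro (h0 | h0 | h0)
      · simp [h0]
      · rw [h0]
      · rw [h0]; exact Dvd.intro_left 2 rfl
  have hne : ∀ p, 3 * dif a b p ≠ 0 := by
    rintro ⟨i, j⟩ hh
    have := hrange i j
    rw [hcast, h3 _ this.2.1] at hh
    omega
  refine ⟨hinj, hne, ?_⟩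
  let S : Finset (ZMod n) := Finset.univ.filter (fun d => 3 * d ≠ 0)
  have hS : S.card ≤ 6 * k := by
    have hc : S.card + (Finset.univ.filter (fun d : ZMod n => ¬ (3 * d ≠ 0))).card = n := by
      rw [Finset.card_filter_add_card_filter_not]; simp
    rcases hn with hn | hn
    · have : 1 ≤ (Finset.univ.filter (fun d : ZMod n => ¬ (3 * d ≠ 0))).card :=
        Finset.card_pos.2 ⟨0, by simp⟩
      omega
    · have hsub : Finset.image (fun m : ℕ => (m : ZMod n)) {0, 2 * k + 1, 4 * k + 2} ⊆
          (Finset.univ.filter (fun d : ZMod n => ¬ (3 * d ≠ 0))) := by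
        intro d hd
        obtain ⟨m, hm, rfl⟩ := Finset.mem_image.1 hd
        simp only [Finset.mem_insert, Finset.mem_singleton] at hm
        simp only [Finset.mem_filter, Finset.mem_univ, true_and, not_not]
        rw [h3 m (by omega)]
        omega
      have hcard : (Finset.image (fun m : ℕ => (m : ZMod n)) {0, 2 * k + 1, 4 * k + 2}).card
          = 3 := by
        rw [Finset.card_image_of_injOn]
        · rw [Finset.card_eq_three]
          exact ⟨_, _, _, by omega, by omega, by omega, rfl⟩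
        · intro m hm m' hm' hh
          simp only [Finset.coe_insert, Finset.coe_singleton, Set.mem_insert_iff,
            Set.mem_singleton_iff] at hm hm'
          have hh' : (m : ZMod n) = (m' : ZMod n) := hh
          rw [ZMod.natCast_eq_natCast_iff', Nat.mod_eq_of_lt (by omega),
            Nat.mod_eq_of_lt (by omega)] at hh'
          exact hh'
      have := Finset.card_le_card hsub
      omega
  have himg : Finset.univ.image (dif a b) = S := by
    apply Finset.eq_of_subset_of_card_le
    · intro d hd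
      obtain ⟨p, -, rfl⟩ := Finset.mem_image.1 hd
      simpa [S] using hne p
    · rw [Finset.card_image_of_injective _ hinj]
      simp only [Finset.card_univ, Fintype.card_prod, Fintype.card_fin]
      omega
  intro d hd
  have : d ∈ Finset.univ.image (dif a b) := by rw [himg]; simpa [S] using hd
  obtain ⟨p, -, hp⟩ := Finset.mem_image.1 this
  exact ⟨p, hp⟩

theorem two_pow_le_card {k n : ℕ} [NeZero n] (hk : 8 ≤ k) (hn : n = 6 * k + 1 ∨ n = 6 * k + 3) :
    2 ^ k ≤ Nat.card {C : Finset (Finset (ZMod n)) // IsCyc C} := by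
  classical
  obtain ⟨x, hx⟩ := heff_exists k hk n hn
  have hF := fam_of_heffter (by omega) hn hx
  have hinj := flip_injective hF
  have := Nat.card_le_card_of_injective
    (fun ε : Fin k → Bool => (⟨_, isCyc_blocks (goodRel_famRel (hF.flip ε))⟩ :
      {C : Finset (Finset (ZMod n)) // IsCyc C}))
    (fun ε ε' h => hinj (congrArg Subtype.val h))
  simpa using this

theorem many_cyclic (M k n : ℕ) [NeZero n] (hk : 8 ≤ k) (hn : n = 6 * k + 1 ∨ n = 6 * k + 3)
    (hM : M * n < 2 ^ k + n) :
    ∃ B : Fin M → Finset (Finset (ZMod n)), (∀ i, IsCyc (B i)) ∧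
      ∀ i j, i ≠ j → ¬ Iso (B i) (B j) := by
  classical
  refine greedy IsCyc Iso (fun _ _ h => h.symm) n (fun B => ?_) M ?_
  · refine le_trans ?_ (iso_card_le n B)
    exact Nat.card_le_card_of_injective
      (fun C => (⟨C.1, C.2.1.2.2, C.2.2⟩ : {C : Finset (Finset (ZMod n)) //
        (∀ b ∈ C, b.image (fun x => x + 1) ∈ C) ∧ Iso B C}))
      (fun C C' h => Subtype.ext (by simpa using h))
  · have := two_pow_le_card hk hn
    omega

theorem sq_le_two_pow (k : ℕ) (hk : 4 ≤ k) : k * k ≤ 2 ^ k := by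
  induction k, hk using Nat.le_induction with
  | base => norm_num
  | succ k hk ih => rw [pow_succ]; nlinarith

end Pool.Agent.P.MP_72c5f4_co
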